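import Pool.Agent.SZT.StmtsB

/-!
# Squad SZT, row STR (helper80)
-/

set_option autoImplicit false

noncomputable section

namespace Pool.Agent.SZT.H80

open Pool.Agent.SZT.B

theorem term_lt {L : Type} [NormedField L] (r μ t : ℝ) (c : ℤ → L) (X : L) (hr : 0 < r)
    (hμ : 0 < μ) (hb : Bdd r μ c) (ht0 : 0 < t) (ht1 : t < 1) (hX : r ^ t = ‖X‖) (k : ℤ)
    (hk : μ ≠ r ^ k) : ‖c k * X ^ k‖ < μ ^ t := by
  have hrk : 0 < r ^ k := zpow_pos hr k
  have hXk : ‖X‖ ^ k = (r ^ k) ^ t := by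
    rw [← hX, ← Real.rpow_intCast, ← Real.rpow_mul hr.le, ← Real.rpow_intCast,
      ← Real.rpow_mul hr.le, mul_comm]
  have hpos : 0 < (r ^ k) ^ t := Real.rpow_pos_of_pos hrk t
  rw [norm_mul, norm_zpow, hXk]
  rcases lt_or_gt_of_ne hk with h | h
  · have h1 : ‖c k‖ * (r ^ k) ^ t ≤ μ * r ^ (-k) * (r ^ k) ^ t :=
      mul_le_mul_of_nonneg_right (hb.2 k) hpos.le
    have h2 : μ * r ^ (-k) * (r ^ k) ^ t = μ * (r ^ k) ^ (t - 1) := by
      rw [Real.rpow_sub hrk, Real.rpow_one, zpow_neg]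
      field_simp
    have h3 : (r ^ k) ^ (t - 1) < μ ^ (t - 1) :=
      Real.rpow_lt_rpow_of_neg hμ h (by linarith)
    have h4 : μ * μ ^ (t - 1) = μ ^ t := by
      rw [Real.rpow_sub hμ, Real.rpow_one]
      field_simp
    calc ‖c k‖ * (r ^ k) ^ t ≤ μ * (r ^ k) ^ (t - 1) := h1.trans_eq h2
      _ < μ * μ ^ (t - 1) := mul_lt_mul_of_pos_left h3 hμ
      _ = μ ^ t := h4
  · have h1 : ‖c k‖ * (r ^ k) ^ t ≤ 1 * (r ^ k) ^ t :=
      mul_le_mul_of_nonneg_right (hb.1 k) hpos.le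
    have h2 : (r ^ k) ^ t < μ ^ t := Real.rpow_lt_rpow hrk.le h ht0
    linarith

/-- Row STR. -/
theorem str (hSum : SumStmt) : StrStmt := by
  intro L _ _ _ r μ c X hr hr1 hμ hb hA hne
  obtain ⟨ht0, ht1, hX, -, hs, -⟩ := hSum L r μ c X hr hr1 hμ hb hA
  set t := pos r X with ht
  have hlt : ∀ k : ℤ, ‖c k * X ^ k‖ < μ ^ t := fun k =>
    term_lt r μ t c X hr hμ hb ht0 ht1 hX k (hne k)
  have hμt : 0 < μ ^ t := Real.rpow_pos_of_pos hμ t
  have htend := hs.tendsto_cofinite_zero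
  have hfin : {k : ℤ | ¬ ‖c k * X ^ k‖ < μ ^ t / 2}.Finite := by
    have h1 := (Metric.tendsto_nhds.1 htend) (μ ^ t / 2) (by positivity)
    rw [Filter.eventually_cofinite] at h1
    simpa [dist_zero_right] using h1
  obtain ⟨M, hM, hMlt, hM0⟩ : ∃ M : ℝ, (∀ k : ℤ, ‖c k * X ^ k‖ ≤ M) ∧ M < μ ^ t ∧ 0 ≤ M := by
    rcases hfin.toFinset.eq_empty_or_nonempty with he | he
    · refine ⟨μ ^ t / 2, fun k => ?_, by linarith, by positivity⟩
      by_contra hcon
      have : k ∈ hfin.toFinset := by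
        rw [Set.Finite.mem_toFinset]
        intro h
        exact hcon h.le
      rw [he] at this
      exact absurd this (Finset.notMem_empty k)
    · obtain ⟨k0, -, hk0⟩ := Finset.exists_max_image hfin.toFinset (fun k => ‖c k * X ^ k‖) he
      refine ⟨max (μ ^ t / 2) ‖c k0 * X ^ k0‖, fun k => ?_, max_lt (by linarith) (hlt k0),
        le_max_of_le_left (by positivity)⟩
      by_cases hk : k ∈ hfin.toFinset
      · exact le_max_of_le_right (hk0 k hk)
      · rw [Set.Finite.mem_toFinset] at hk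
        have : ‖c k * X ^ k‖ < μ ^ t / 2 := by
          by_contra hcon
          exact hk hcon
        exact le_max_of_le_left this.le
  have hle : ‖val c X‖ ≤ M := by
    unfold val
    exact IsUltrametricDist.norm_tsum_le_of_forall_le_of_nonneg hM0 hM
  exact hle.trans_lt hMlt

end Pool.Agent.SZT.H80
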